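import Pool.Agent.Helper56.RZ.GoalsF
import Pool.Agent.Helper33.RZ.B2

/-!
# PACKET RZ5-TR5 (MP_f32c9c_an): transport of the graphs
-/

set_option autoImplicit false

open Set Filter Topology

namespace Pool.Agent.Helper38.RZ

open Pool.Agent.Helper56.RZ
open Pool.Agent.Helper33.RZ (An_zero An_succ An_succ' An_T An_mul_inv An_equiv spl_T spl_T' spl_inv)

section
variable {X : Type} [TopologicalSpace X] {K : ℕ} (C : Coc X K)

theorem inv_mul_An (n : ℕ) (x : X) : C.inv.An n (C.f^[n] x) * C.An n x = C.T x := by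
  induction n with
  | zero => exact C.TT x
  | succ n ih =>
    rw [An_succ C, An_succ' C.inv]
    have h1 : C.inv.f (C.f^[n + 1] x) = C.f^[n] x := by
      rw [Function.iterate_succ_apply']
      exact C.f.symm_apply_apply _
    have h2 : C.inv.A (C.f^[n + 1] x) = C.B (C.f (C.f^[n] x)) := by
      rw [Function.iterate_succ_apply']
      rfl
    rw [h1, h2, show C.inv.An n (C.f^[n] x) * C.B (C.f (C.f^[n] x)) * (C.A (C.f^[n] x) * C.An n x) =
      C.inv.An n (C.f^[n] x) * (C.B (C.f (C.f^[n] x)) * C.A (C.f^[n] x)) * C.An n x by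
        simp only [mul_assoc], C.BA]
    have h3 : C.inv.An n (C.f^[n] x) * C.T (C.f^[n] x) = C.inv.An n (C.f^[n] x) :=
      An_T C.inv n (C.f^[n] x)
    rw [h3, ih]

variable {C} {P : Fin 3 → X → End K}

theorem eqv (h : Spl C P) (i : Fin 3) (n : ℕ) (x : X) :
    C.An n x * P i x = P i (C.f^[n] x) * C.An n x :=
  An_equiv C (P i) (spl_T h i) (spl_T' h i) (fun x => h.inv x i) n x

theorem eqvi (h : Spl C P) (i : Fin 3) (n : ℕ) (x : X) :
    C.inv.An n x * P i x = P i (C.f.symm^[n] x) * C.inv.An n x :=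
  eqv (spl_inv h) i n x

end

theorem tr5 : StmtTR5 := by
  intro X _ _ K C H e P Q Γ n ck lk κk RP RA B hP o hRP hRA hRB hoff J x
  have hPP : ∀ i x, P i x * P i x = P i x := fun i x => by rw [hP.proj, if_pos rfl]
  have hTQ : ∀ x, C.T x * Q 1 x = Q 1 x := fun x => spl_T o.spl 1 x
  have hTG : ∀ x, C.T x * Γ x = Γ x := fun x => by
    rw [← o.lift.QG x, ← mul_assoc, hTQ]
  have hck : 0 ≤ ck * κk := (norm_nonneg _).trans (o.liftc x)
  have hRA0 : 0 ≤ RA := (norm_nonneg _).trans (hRA x)
  have hRP0 : 0 ≤ RP := (norm_nonneg _).trans (hRP x 0)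
  constructor
  · intro hback
    have hof : ∀ j, 1 ≤ j → j ≤ J → H.Off (C.f.symm^[j] x) := fun j h1 h2 => hoff _ (hback j h1 h2)
    have key1 : ∀ i, i ≤ J → (C.comp H e).f.symm^[i] x = C.f.symm^[i] x := by
      intro i
      induction i with
      | zero => intro _; rfl
      | succ i ih =>
        intro hi
        have hs : ∀ y, (C.comp H e).f.symm y = H.f.symm (C.f.symm y) := fun y => rfl
        rw [Function.iterate_succ_apply', ih (by omega), hs, Function.iterate_succ_apply',
          Homeomorph.symm_apply_eq]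
        have h5 := (hof (i + 1) (by omega) hi).1
        rw [Function.iterate_succ_apply'] at h5
        exact h5.symm
    have key2 : ∀ i, i ≤ J → (C.comp H e).inv.An i x = C.inv.An i x := by
      intro i
      induction i with
      | zero => intro _; rfl
      | succ i ih =>
        intro hi
        rw [An_succ, An_succ, ih (by omega)]
        have h1 : (C.comp H e).inv.f^[i] x = C.f.symm^[i] x := key1 i (by omega)
        have h2 : C.inv.f^[i] x = C.f.symm^[i] x := rfl
        rw [h1, h2]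
        have h3 : (C.comp H e).inv.A (C.f.symm^[i] x) =
            H.B (C.f.symm (C.f.symm^[i] x)) * C.B (C.f.symm^[i] x) := rfl
        have h4 : C.inv.A (C.f.symm^[i] x) = C.B (C.f.symm^[i] x) := rfl
        have h5 := (hof (i + 1) (by omega) hi).B
        rw [Function.iterate_succ_apply'] at h5
        rw [h3, h4, h5, e, C.TB]
    set z := C.f.symm^[J] x with hz
    have hR : C.inv.An J x * Γ x = Γ z * (C.inv.An J x * P 1 x) := by
      have h1 : (C.comp H e).inv.An J x * Q 1 x =
          Q 1 ((C.comp H e).f.symm^[J] x) * (C.comp H e).inv.An J x := eqvi o.spl 1 J x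
      rw [key2 J le_rfl, key1 J le_rfl, ← hz] at h1
      have h2 : C.inv.An J x * Γ x = Q 1 z * (C.inv.An J x * Γ x) := by
        rw [← mul_assoc, ← h1, mul_assoc, o.lift.QG]
      have h3 : P 1 z * (C.inv.An J x * Γ x) = C.inv.An J x * P 1 x := by
        have h4 : C.inv.An J x * P 1 x = P 1 z * C.inv.An J x := eqvi hP 1 J x
        rw [← mul_assoc, ← h4, mul_assoc, o.lift.PG]
      calc C.inv.An J x * Γ x = Q 1 z * (C.inv.An J x * Γ x) := h2
        _ = Γ z * P 1 z * Q 1 z * (C.inv.An J x * Γ x) := by rw [o.lift.GQ]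
        _ = Γ z * P 1 z * (Q 1 z * (C.inv.An J x * Γ x)) := by simp only [mul_assoc]
        _ = Γ z * (P 1 z * (C.inv.An J x * Γ x)) := by rw [← h2, mul_assoc]
        _ = _ := by rw [h3]
    have hfz : C.f^[J] z = x :=
      Function.LeftInverse.iterate (fun y => C.f.apply_symm_apply y) J x
    have h0 : P 0 x * Γ x =
        (C.An J z * P 0 z) * (P 0 z * Γ z) * (C.inv.An J x * P 1 x) := by
      have h1 : C.An J z * C.inv.An J x = C.T x := by
        have := An_mul_inv C J z
        rwa [hfz] at this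
      have h2 : P 0 x * C.An J z = C.An J z * P 0 z := by
        have := eqv hP 0 J z
        rw [hfz] at this
        exact this.symm
      calc P 0 x * Γ x = P 0 x * (C.T x * Γ x) := by rw [hTG]
        _ = P 0 x * C.An J z * (C.inv.An J x * Γ x) := by rw [← h1]; simp only [mul_assoc]
        _ = C.An J z * P 0 z * (Γ z * (C.inv.An J x * P 1 x)) := by rw [h2, hR]
        _ = C.An J z * (P 0 z * P 0 z) * (Γ z * (C.inv.An J x * P 1 x)) := by rw [hPP]
        _ = _ := by simp only [mul_assoc]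
    set z' := C.f.symm^[J + 1] x with hz'
    have hzz : z' = C.f.symm z := by rw [hz', Function.iterate_succ_apply']
    have hfz' : C.f z' = z := by rw [hzz]; exact C.f.apply_symm_apply z
    have hfz2 : C.f^[J + 1] z' = x := by rw [Function.iterate_succ_apply, hfz', hfz]
    have h1 : C.An J z * P 0 z = C.An (J + 1) z' * P 0 z' * C.B z := by
      rw [An_succ', hfz', show C.An J z * C.A z' * P 0 z' * C.B z =
        C.An J z * (C.A z' * P 0 z') * C.B z by simp only [mul_assoc], hP.inv, hfz',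
        show C.An J z * (P 0 z * C.A z') * C.B z = C.An J z * (P 0 z * (C.A z' * C.B z)) by
          simp only [mul_assoc]]
      have h2 := C.AB z'
      rw [hfz'] at h2
      rw [h2, spl_T' hP]
    have h2 : C.inv.An J x * P 1 x = C.A z' * (C.inv.An (J + 1) x * P 1 x) := by
      have h3 : C.inv.An (J + 1) x = C.B z * C.inv.An J x := rfl
      have h4 := C.AB z'
      rw [hfz'] at h4
      have h5 : C.inv.An J x * P 1 x = P 1 z * C.inv.An J x := eqvi hP 1 J x
      rw [h3, show C.A z' * (C.B z * C.inv.An J x * P 1 x) =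
        (C.A z' * C.B z) * (C.inv.An J x * P 1 x) by simp only [mul_assoc], h4, h5, ← mul_assoc,
        spl_T hP]
    have h3 : ‖P 0 z * Γ z‖ ≤ ck * κk := by
      have := o.past 0 z (fun j h1 h2 => by omega)
      simpa using this
    have h4 : ‖C.An J z * P 0 z‖ ≤ ‖C.An (J + 1) z' * P 0 z'‖ * RA := by
      rw [h1]
      exact (norm_mul_le _ _).trans (mul_le_mul_of_nonneg_left (hRB z) (norm_nonneg _))
    have h5 : ‖C.inv.An J x * P 1 x‖ ≤ RA * ‖C.inv.An (J + 1) x * P 1 x‖ := by
      rw [h2]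
      exact (norm_mul_le _ _).trans (mul_le_mul_of_nonneg_right (hRA z') (norm_nonneg _))
    have h6 : ‖C.An (J + 1) z' * P 0 z'‖ * ‖C.inv.An (J + 1) x * P 1 x‖ ≤ DP C P (J + 1) z' := by
      unfold DP
      rw [hfz2]
      exact le_max_left _ _
    rw [h0]
    calc ‖(C.An J z * P 0 z) * (P 0 z * Γ z) * (C.inv.An J x * P 1 x)‖
        ≤ ‖C.An J z * P 0 z‖ * ‖P 0 z * Γ z‖ * ‖C.inv.An J x * P 1 x‖ :=
          (norm_mul_le _ _).trans (mul_le_mul_of_nonneg_right (norm_mul_le _ _) (norm_nonneg _))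
      _ ≤ (‖C.An (J + 1) z' * P 0 z'‖ * RA) * (ck * κk) *
          (RA * ‖C.inv.An (J + 1) x * P 1 x‖) := by
          apply mul_le_mul (mul_le_mul h4 h3 (norm_nonneg _) (by positivity)) h5 (norm_nonneg _)
          positivity
      _ = RA ^ 2 * (ck * κk) *
          (‖C.An (J + 1) z' * P 0 z'‖ * ‖C.inv.An (J + 1) x * P 1 x‖) := by ring
      _ ≤ _ := mul_le_mul_of_nonneg_left h6 (by positivity)
  · intro hfor
    set x1 := H.f x with hx1
    have hof : ∀ j, 1 ≤ j → j ≤ J → H.Off (C.f^[j] x1) := fun j h1 h2 => hoff _ (hfor j h1 h2)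
    have key1 : ∀ i, i ≤ J → (C.comp H e).f^[i + 1] x = C.f^[i + 1] x1 := by
      intro i
      induction i with
      | zero => intro _; rfl
      | succ i ih =>
        intro hi
        have hf : ∀ y, (C.comp H e).f y = C.f (H.f y) := fun y => rfl
        rw [Function.iterate_succ_apply', ih (by omega), hf, (hof (i + 1) (by omega) hi).1,
          ← Function.iterate_succ_apply' (C.f) (i + 1)]
    have key2 : ∀ i, i ≤ J → (C.comp H e).An (i + 1) x = C.An (i + 1) x1 * H.A x := by
      intro i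
      induction i with
      | zero =>
        intro _
        have h1 : (C.comp H e).An (0 + 1) x = C.A x1 * H.A x * C.T x := rfl
        have h2 : C.An (0 + 1) x1 = C.A x1 * C.T x1 := rfl
        rw [h1, h2, C.AT, mul_assoc, ← e, H.AT]
      | succ i ih =>
        intro hi
        rw [An_succ, ih (by omega), key1 i (by omega), An_succ C (i + 1)]
        have h3 : (C.comp H e).A (C.f^[i + 1] x1) =
            C.A (H.f (C.f^[i + 1] x1)) * H.A (C.f^[i + 1] x1) := rfl
        rw [h3, (hof (i + 1) (by omega) hi).1, (hof (i + 1) (by omega) hi).2, e, C.AT, mul_assoc]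
    set y := C.f^[J + 1] x1 with hy
    set V := H.A x * Γ x with hV
    have hW : C.An (J + 1) x1 * V = Q 1 y * (C.An (J + 1) x1 * V) := by
      have h1 : (C.comp H e).An (J + 1) x * Q 1 x =
          Q 1 ((C.comp H e).f^[J + 1] x) * (C.comp H e).An (J + 1) x := eqv o.spl 1 (J + 1) x
      rw [key2 J le_rfl, key1 J le_rfl, ← hy] at h1
      calc C.An (J + 1) x1 * V = C.An (J + 1) x1 * (H.A x * (Q 1 x * Γ x)) := by
            rw [o.lift.QG]
        _ = C.An (J + 1) x1 * H.A x * Q 1 x * Γ x := by simp only [mul_assoc]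
        _ = _ := by rw [h1, hV]; simp only [mul_assoc]
    have hW2 : C.An (J + 1) x1 * V = Γ y * (P 1 y * (C.An (J + 1) x1 * V)) := by
      calc C.An (J + 1) x1 * V = Q 1 y * (C.An (J + 1) x1 * V) := hW
        _ = Γ y * P 1 y * Q 1 y * (C.An (J + 1) x1 * V) := by rw [o.lift.GQ]
        _ = Γ y * P 1 y * (Q 1 y * (C.An (J + 1) x1 * V)) := by simp only [mul_assoc]
        _ = _ := by rw [← hW, mul_assoc]
    have h1 : P 1 y * (C.An (J + 1) x1 * V) = (C.An (J + 1) x1 * P 1 x1) * V := by
      rw [eqv hP 1 (J + 1) x1, ← mul_assoc]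
    have h2 : P 2 x1 * H.A x * Γ x =
        (C.inv.An (J + 1) y * P 2 y) * (P 2 y * Γ y) * ((C.An (J + 1) x1 * P 1 x1) * V) := by
      have h3 := inv_mul_An C (J + 1) x1
      rw [← hy] at h3
      have h4 := eqv hP 2 (J + 1) x1
      rw [← hy] at h4
      calc P 2 x1 * H.A x * Γ x = C.T x1 * P 2 x1 * V := by
            rw [spl_T hP, hV, mul_assoc]
        _ = C.inv.An (J + 1) y * (C.An (J + 1) x1 * P 2 x1) * V := by
            rw [← h3]; simp only [mul_assoc]
        _ = C.inv.An (J + 1) y * (P 2 y * P 2 y) * (C.An (J + 1) x1 * V) := by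
            rw [h4, hPP]; simp only [mul_assoc]
        _ = C.inv.An (J + 1) y * (P 2 y * P 2 y) * (Γ y * (P 1 y * (C.An (J + 1) x1 * V))) := by
            rw [← hW2]
        _ = _ := by rw [h1]; simp only [mul_assoc]
    have h3 : ‖P 2 y * Γ y‖ ≤ RP * (ck * κk) := by
      have h4 : P 2 y * Γ y = P 2 y * (Γ y - P 1 y) := by
        rw [mul_sub, hP.proj y 2 1, if_neg (by decide), sub_zero]
      rw [h4]
      exact (norm_mul_le _ _).trans (mul_le_mul (hRP y 2) (o.liftc y) (norm_nonneg _) hRP0)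
    have h4 : ‖C.inv.An (J + 1) y * P 2 y‖ * ‖C.An (J + 1) x1 * P 1 x1‖ ≤ DP C P (J + 1) x1 := by
      unfold DP
      exact le_max_right _ _
    rw [h2]
    calc ‖(C.inv.An (J + 1) y * P 2 y) * (P 2 y * Γ y) * ((C.An (J + 1) x1 * P 1 x1) * V)‖
        ≤ ‖C.inv.An (J + 1) y * P 2 y‖ * ‖P 2 y * Γ y‖ * (‖C.An (J + 1) x1 * P 1 x1‖ * ‖V‖) :=
          (norm_mul_le _ _).trans (mul_le_mul (norm_mul_le _ _) (norm_mul_le _ _)
            (norm_nonneg _) (by positivity))
      _ ≤ ‖C.inv.An (J + 1) y * P 2 y‖ * (RP * (ck * κk)) *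
          (‖C.An (J + 1) x1 * P 1 x1‖ * ‖V‖) := by
          gcongr
      _ = RP * (ck * κk) * ‖V‖ *
          (‖C.inv.An (J + 1) y * P 2 y‖ * ‖C.An (J + 1) x1 * P 1 x1‖) := by ring
      _ ≤ _ := mul_le_mul_of_nonneg_left h4 (by positivity)

end Pool.Agent.Helper38.RZ
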